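import Mathlib

/-!
# Asymmetric supersaturation for Rado systems fails

A system `A' x = c` of integer linear equations is stored as a matrix together with a right-hand
side.  We exhibit two systems (`x - 2y = -5` and `x - 2y = -7`) which satisfy all the hypotheses of
the question, and one 2-colouring of the positive integers for which `[n]` contains only
`O(log n)` solutions of the `i`-th system in colour `i`, while `n ^ (k - l) = n`.
-/

namespace Pool.Agent.Results.MP_9bc523_co.NoAsymmetricSupersaturation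

open Matrix

/-- A system `M x = c` of `l` linear equations over `ℤ` in `k` unknowns. -/
structure LinSys where
  /-- number of equations -/
  l : ℕ
  /-- number of unknowns -/
  k : ℕ
  /-- the underlying matrix -/
  M : Matrix (Fin l) (Fin k) ℤ
  /-- the right-hand side -/
  c : Fin l → ℤ

namespace LinSys

/-- The underlying matrix has full rank `l` (over `ℚ`). -/
def FullRank (A : LinSys) : Prop := (A.M.map (Int.cast : ℤ → ℚ)).rank = A.l

/-- The homogeneous system `M x = 0` attached to `M x = c`. -/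
def homogeneous (A : LinSys) : LinSys := { A with c := 0 }

/-- `x` is a `k`-distinct solution of the system with all entries in `S ⊆ ℕ`. -/
def IsDistinctSolution (A : LinSys) (S : Set ℕ) (x : Fin A.k → ℕ) : Prop :=
  Function.Injective x ∧ (∀ j, x j ∈ S) ∧ A.M *ᵥ (fun j => (x j : ℤ)) = A.c

/-- The system has a `k`-distinct solution in the positive integers. -/
def Irredundant (A : LinSys) : Prop := ∃ x, A.IsDistinctSolution {m | 1 ≤ m} x

/-- The number of `k`-distinct solutions in `[n] = {1, …, n}` all of whose entries have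
colour `i`. -/
noncomputable def colourCount (A : LinSys) {r : ℕ} (n : ℕ) (f : ℕ → Fin r) (i : Fin r) : ℕ :=
  {x : Fin A.k → ℕ | A.IsDistinctSolution (Set.Icc 1 n) x ∧ ∀ j, f (x j) = i}.ncard

end LinSys

/-- `S` is `(A₁, …, A_r)`-Rado: for every `r`-colouring of `S` there is `i` and a `k_i`-distinct
solution of `A_i` in `S` all of whose entries have colour `i`. -/
def IsRado {r : ℕ} (A : Fin r → LinSys) (S : Set ℕ) : Prop :=
  ∀ f : ℕ → Fin r, ∃ i, ∃ x, (A i).IsDistinctSolution S x ∧ ∀ j, f (x j) = i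

/-- All the hypotheses of the question: full rank, irredundancy of `A_i` and of `A'_i`, and the
positive integers are `(A₁, …, A_r)`-Rado. -/
def Admissible {r : ℕ} (A : Fin r → LinSys) : Prop :=
  (∀ i, (A i).FullRank) ∧ (∀ i, (A i).Irredundant) ∧ (∀ i, (A i).homogeneous.Irredundant) ∧
    IsRado A {m | 1 ≤ m}

/-- The supersaturation property asked for: there are `c > 0` and `n₀` such that for all `n > n₀`
every `r`-colouring of `[n]` has, for some `i`, at least `c * n ^ (k_i - l_i)` solutions of `A_i`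
in colour `i`. -/
def Supersaturated {r : ℕ} (A : Fin r → LinSys) : Prop :=
  ∃ c : ℝ, 0 < c ∧ ∃ n₀ : ℕ, ∀ n : ℕ, n₀ < n → ∀ f : ℕ → Fin r, ∃ i,
    c * (n : ℝ) ^ ((A i).k - (A i).l) ≤ ((A i).colourCount n f i : ℝ)

/-- The system consisting of the single equation `x - 2 y = - a`. -/
def sys (a : ℤ) : LinSys := { l := 1, k := 2, M := !![1, -2], c := ![-a] }

lemma mulVec_iff (a : ℤ) (v : Fin 2 → ℤ) :
    (!![(1 : ℤ), -2] *ᵥ v = ![-a]) ↔ v 0 + a = 2 * v 1 := by
  constructor
  · intro h
    have := congrFun h 0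
    simp [Matrix.mulVec, dotProduct, Fin.sum_univ_two] at this
    linarith
  · intro h
    ext i
    fin_cases i
    simp [Matrix.mulVec, dotProduct, Fin.sum_univ_two]
    linarith

lemma sys_iff (a : ℤ) (S : Set ℕ) (x : Fin 2 → ℕ) :
    (sys a).IsDistinctSolution S x ↔
      (x 0 ≠ x 1 ∧ x 0 ∈ S ∧ x 1 ∈ S ∧ (x 0 : ℤ) + a = 2 * x 1) := by
  unfold LinSys.IsDistinctSolution
  constructor
  · rintro ⟨hi, hS, he⟩
    refine ⟨fun h => ?_, hS (0 : Fin 2), hS (1 : Fin 2), (mulVec_iff a _).1 he⟩
    have h01 : (0 : Fin 2) = 1 := hi h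
    exact absurd h01 (by decide)
  · rintro ⟨hne, h0, h1', he⟩
    refine ⟨?_, ?_, (mulVec_iff a _).2 he⟩
    · intro i j hij
      change Fin 2 at i j
      fin_cases i <;> fin_cases j <;> first | rfl | (exfalso; exact hne hij) |
        (exfalso; exact hne hij.symm)
    · intro j
      change Fin 2 at j
      fin_cases j
      · exact h0
      · exact h1'

lemma sys_fullRank (a : ℤ) : (sys a).FullRank := by
  unfold LinSys.FullRank
  change (Matrix.map !![(1 : ℤ), -2] (Int.cast : ℤ → ℚ)).rank = 1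
  have h : LinearIndependent ℚ (Matrix.map !![(1 : ℤ), -2] (Int.cast : ℤ → ℚ)).row := by
    refine LinearIndependent.of_subsingleton (0 : Fin 1) ?_
    intro h
    have := congrFun h 0
    simp [Matrix.row] at this
  simpa using h.rank_matrix

lemma homogeneous_sys (a : ℤ) : (sys a).homogeneous = sys 0 := by
  unfold LinSys.homogeneous sys
  congr 1
  ext i
  fin_cases i
  simp

lemma sys_irredundant {a : ℤ} (x y : ℕ) (hx : 1 ≤ x) (hy : 1 ≤ y) (hne : x ≠ y)
    (h : (x : ℤ) + a = 2 * y) : (sys a).Irredundant :=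
  ⟨![x, y], (sys_iff a _ ![x, y]).2 ⟨hne, hx, hy, h⟩⟩

lemma ne0 : ∀ a : Fin 2, a ≠ 0 → a = 1 := by decide

lemma ne1 : ∀ a : Fin 2, a ≠ 1 → a = 0 := by decide

/-- The two systems `x - 2 y = -5` and `x - 2 y = -7`. -/
def pair : Fin 2 → LinSys := ![sys 5, sys 7]

/-- Every 2-colouring of `{1, …, 19}` has a solution of `x - 2y = -5` in the first colour or a
solution of `x - 2y = -7` in the second colour. -/
lemma pair_rado_19 (f : ℕ → Fin 2) : ∃ i, ∃ x, (pair i).IsDistinctSolution (Set.Icc 1 19) x ∧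
    ∀ j, f (x j) = i := by
  by_contra hcon
  push Not at hcon
  have key : ∀ (i : Fin 2) (a : ℤ), pair i = sys a → ∀ x y : ℕ, x ≠ y → 1 ≤ x → x ≤ 19 →
      1 ≤ y → y ≤ 19 → (x : ℤ) + a = 2 * y → f x = i → f y = i → False := by
    intro i a hia x y hne hx hx' hy hy' he hfx hfy
    have h := hcon i
    rw [hia] at h
    obtain ⟨j, hj⟩ := h ![x, y] ((sys_iff a _ ![x, y]).2 ⟨hne, ⟨hx, hx'⟩, ⟨hy, hy'⟩, he⟩)
    change Fin 2 at j
    fin_cases j
    · exact hj hfx
    · exact hj hfy
  have h0 : ∀ x y : ℕ, x ≠ y → 1 ≤ x → x ≤ 19 → 1 ≤ y → y ≤ 19 → (x : ℤ) + 5 = 2 * y →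
      f x = 0 → f y = 0 → False := key 0 5 rfl
  have h1 : ∀ x y : ℕ, x ≠ y → 1 ≤ x → x ≤ 19 → 1 ≤ y → y ≤ 19 → (x : ℤ) + 7 = 2 * y →
      f x = 1 → f y = 1 → False := key 1 7 rfl
  have h0' : ∀ x y : ℕ, x ≠ y → 1 ≤ x → x ≤ 19 → 1 ≤ y → y ≤ 19 → (x : ℤ) + 5 = 2 * y →
      f x = 0 → f y = 1 := by
    intro x y a b c d e g hx
    exact ne0 (f y) (h0 x y a b c d e g hx)
  have h0'' : ∀ x y : ℕ, x ≠ y → 1 ≤ x → x ≤ 19 → 1 ≤ y → y ≤ 19 → (x : ℤ) + 5 = 2 * y →
      f y = 0 → f x = 1 := by
    intro x y a b c d e g hy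
    exact ne0 (f x) (fun hx => h0 x y a b c d e g hx hy)
  have h1' : ∀ x y : ℕ, x ≠ y → 1 ≤ x → x ≤ 19 → 1 ≤ y → y ≤ 19 → (x : ℤ) + 7 = 2 * y →
      f x = 1 → f y = 0 := by
    intro x y a b c d e g hx
    exact ne1 (f y) (h1 x y a b c d e g hx)
  have h1'' : ∀ x y : ℕ, x ≠ y → 1 ≤ x → x ≤ 19 → 1 ≤ y → y ≤ 19 → (x : ℤ) + 7 = 2 * y →
      f y = 1 → f x = 0 := by
    intro x y a b c d e g hy
    exact ne1 (f x) (fun hx => h1 x y a b c d e g hx hy)
  have h9 : f 9 = 0 := by
    by_contra h9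
    have h9 : f 9 = 1 := ne0 (f 9) h9
    have h11 : f 11 = 0 := h1'' 11 9 (by norm_num) (by norm_num) (by norm_num) (by norm_num)
      (by norm_num) (by norm_num) h9
    have h8 : f 8 = 0 := h1' 9 8 (by norm_num) (by norm_num) (by norm_num) (by norm_num)
      (by norm_num) (by norm_num) h9
    exact h0 11 8 (by norm_num) (by norm_num) (by norm_num) (by norm_num)
      (by norm_num) (by norm_num) h11 h8
  have h13 : f 13 = 1 := h0'' 13 9 (by norm_num) (by norm_num) (by norm_num) (by norm_num)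
      (by norm_num) (by norm_num) h9
  have h10 : f 10 = 0 := h1' 13 10 (by norm_num) (by norm_num) (by norm_num) (by norm_num)
      (by norm_num) (by norm_num) h13
  have h19 : f 19 = 0 := h1'' 19 13 (by norm_num) (by norm_num) (by norm_num) (by norm_num)
      (by norm_num) (by norm_num) h13
  have h15 : f 15 = 1 := h0'' 15 10 (by norm_num) (by norm_num) (by norm_num) (by norm_num)
      (by norm_num) (by norm_num) h10
  have h12 : f 12 = 1 := h0' 19 12 (by norm_num) (by norm_num) (by norm_num) (by norm_num)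
      (by norm_num) (by norm_num) h19
  have h11 : f 11 = 0 := h1' 15 11 (by norm_num) (by norm_num) (by norm_num) (by norm_num)
      (by norm_num) (by norm_num) h15
  have h17 : f 17 = 1 := h0'' 17 11 (by norm_num) (by norm_num) (by norm_num) (by norm_num)
      (by norm_num) (by norm_num) h11
  exact h1 17 12 (by norm_num) (by norm_num) (by norm_num) (by norm_num)
      (by norm_num) (by norm_num) h17 h12

lemma pair_admissible : Admissible pair := by
  refine ⟨?_, ?_, ?_, ?_⟩
  · intro i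
    fin_cases i
    · exact sys_fullRank 5
    · exact sys_fullRank 7
  · intro i
    fin_cases i
    · exact sys_irredundant 1 3 (by norm_num) (by norm_num) (by norm_num) (by norm_num)
    · exact sys_irredundant 1 4 (by norm_num) (by norm_num) (by norm_num) (by norm_num)
  · have h : (sys 0).Irredundant :=
      sys_irredundant 2 1 (by norm_num) (by norm_num) (by norm_num) (by norm_num)
    intro i
    fin_cases i
    · change (sys 5).homogeneous.Irredundant
      rw [homogeneous_sys]; exact h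
    · change (sys 7).homogeneous.Irredundant
      rw [homogeneous_sys]; exact h
  · intro f
    obtain ⟨i, x, ⟨h1, h2, h3⟩, h4⟩ := pair_rado_19 f
    exact ⟨i, x, ⟨h1, fun j => (h2 j).1, h3⟩, h4⟩

/-- Colour `t` by the parity of the dyadic band containing it. -/
def band (t : ℕ) : Fin 2 := if Nat.log 2 t % 2 = 0 then 0 else 1

lemma band_mono {x y : ℕ} (h : band x = band y) : Nat.log 2 x % 2 = Nat.log 2 y % 2 := by
  unfold band at h
  split_ifs at h with h1 h2 h2 <;> omega

lemma count_bound {a : ℕ} (ha : a ≤ 7) (n : ℕ) (i : Fin 2) :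
    (sys (a : ℤ)).colourCount n band i ≤ 4 * (Nat.log 2 n + 1) := by
  classical
  let F : Finset (Fin 2 → ℕ) := (Finset.range (Nat.log 2 n + 1) ×ˢ Finset.range 4).image
    (fun p => ![2 * (2 ^ p.1 + p.2) - a, 2 ^ p.1 + p.2])
  have hsub : {x : Fin 2 → ℕ | (sys (a : ℤ)).IsDistinctSolution (Set.Icc 1 n) x ∧
      ∀ j, band (x j) = i} ⊆ (F : Set (Fin 2 → ℕ)) := by
    rintro x ⟨hx, hc⟩
    rw [sys_iff] at hx
    obtain ⟨hne, ⟨hx0, hx0'⟩, ⟨hx1, hx1'⟩, he⟩ := hx
    have he' : x 0 + a = 2 * x 1 := by exact_mod_cast he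
    have hb : Nat.log 2 (x 0) % 2 = Nat.log 2 (x 1) % 2 := by
      apply band_mono
      have e0 := hc (0 : Fin 2)
      have e1 := hc (1 : Fin 2)
      exact e0.trans e1.symm
    set m := Nat.log 2 (x 1) with hm
    have hlo : 2 ^ m ≤ x 1 := Nat.pow_log_le_self 2 (by omega)
    have hhi : x 1 < 2 ^ (m + 1) := Nat.lt_pow_succ_log_self (by norm_num) _
    have hmn : m ≤ Nat.log 2 n := Nat.log_mono_right hx1'
    -- the first entry lies below the next band
    have hlt : x 1 < 2 ^ m + 4 := by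
      by_contra hge
      push Not at hge
      have h1 : 2 ^ (m + 1) ≤ x 0 := by
        have : 2 ^ (m + 1) = 2 * 2 ^ m := by ring
        omega
      have h2 : x 0 < 2 ^ (m + 2) := by
        have : 2 ^ (m + 2) = 2 * 2 ^ (m + 1) := by ring
        omega
      have h3 : Nat.log 2 (x 0) = m + 1 := by
        rw [Nat.log_eq_iff (Or.inl (by omega))]
        exact ⟨h1, h2⟩
      omega
    rw [Finset.mem_coe, Finset.mem_image]
    refine ⟨(m, x 1 - 2 ^ m), ?_, ?_⟩
    · rw [Finset.mem_product, Finset.mem_range, Finset.mem_range]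
      constructor
      · change m < _
        omega
      · change x 1 - 2 ^ m < 4
        omega
    · ext j
      change Fin 2 at j
      fin_cases j
      · change 2 * (2 ^ m + (x 1 - 2 ^ m)) - a = x 0
        omega
      · change 2 ^ m + (x 1 - 2 ^ m) = x 1
        omega
  unfold LinSys.colourCount
  calc {x : Fin (sys (a : ℤ)).k → ℕ | (sys (a : ℤ)).IsDistinctSolution (Set.Icc 1 n) x ∧
      ∀ j, band (x j) = i}.ncard ≤ (F : Set (Fin 2 → ℕ)).ncard :=
        Set.ncard_le_ncard hsub F.finite_toSet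
    _ = F.card := Set.ncard_coe_finset F
    _ ≤ (Finset.range (Nat.log 2 n + 1) ×ˢ Finset.range 4).card := Finset.card_image_le
    _ = 4 * (Nat.log 2 n + 1) := by
      rw [Finset.card_product, Finset.card_range, Finset.card_range, mul_comm]

lemma log_small {c : ℝ} (hc : 0 < c) (n₀ : ℕ) :
    ∃ n : ℕ, n₀ < n ∧ (4 * ((Nat.log 2 n : ℝ) + 1)) < c * n := by
  -- take `n = 2 ^ m` with `m` large
  have h1 : Filter.Tendsto (fun m : ℕ => (m : ℝ) / (2 : ℝ) ^ m) Filter.atTop (nhds 0) := by
    have := tendsto_pow_const_div_const_pow_of_one_lt 1 (show (1 : ℝ) < 2 by norm_num)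
    simpa using this
  have h2 : Filter.Tendsto (fun m : ℕ => 1 / (2 : ℝ) ^ m) Filter.atTop (nhds 0) := by
    have := tendsto_pow_const_div_const_pow_of_one_lt 0 (show (1 : ℝ) < 2 by norm_num)
    simpa using this
  have h3 : Filter.Tendsto (fun m : ℕ => 4 * ((m : ℝ) / (2 : ℝ) ^ m + 1 / (2 : ℝ) ^ m))
      Filter.atTop (nhds 0) := by
    have := (h1.add h2).const_mul 4
    simpa using this
  have h4 := h3.eventually (gt_mem_nhds hc)
  obtain ⟨m, hm, hm'⟩ := (h4.and (Filter.eventually_ge_atTop n₀)).exists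
  refine ⟨2 ^ m, lt_of_le_of_lt hm' (Nat.lt_two_pow_self), ?_⟩
  rw [Nat.log_pow (by norm_num)]
  have hp : (0 : ℝ) < 2 ^ m := by positivity
  have : 4 * ((m : ℝ) / (2 : ℝ) ^ m + 1 / (2 : ℝ) ^ m) = (4 * ((m : ℝ) + 1)) / 2 ^ m := by
    field_simp
  rw [this, div_lt_iff₀ hp] at hm
  push_cast
  exact hm

/-- There are two systems, each of one equation in two unknowns, satisfying all the hypotheses of
the question, for which a single 2-colouring of the positive integers has, for every `n` and every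
`i`, at most `4 (⌊log₂ n⌋ + 1)` solutions of the `i`-th system in colour `i` within `[n]`;
in particular the supersaturation property fails. -/
theorem result :
    ∃ A : Fin 2 → LinSys, Admissible A ∧ (∀ i, (A i).k = 2 ∧ (A i).l = 1) ∧
      (∃ f : ℕ → Fin 2, ∀ n : ℕ, ∀ i, (A i).colourCount n f i ≤ 4 * (Nat.log 2 n + 1)) ∧
      ¬ Supersaturated A := by
  have hk : ∀ i, (pair i).k = 2 ∧ (pair i).l = 1 := by
    intro i
    fin_cases i <;> exact ⟨rfl, rfl⟩
  have hb : ∀ n : ℕ, ∀ i, (pair i).colourCount n band i ≤ 4 * (Nat.log 2 n + 1) := by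
    intro n i
    fin_cases i
    · exact count_bound (a := 5) (by norm_num) n 0
    · exact count_bound (a := 7) (by norm_num) n 1
  refine ⟨pair, pair_admissible, hk, ⟨band, hb⟩, ?_⟩
  rintro ⟨c, hc, n₀, h⟩
  obtain ⟨n, hn, hlt⟩ := log_small hc n₀
  obtain ⟨i, hi⟩ := h n hn band
  rw [(hk i).1, (hk i).2] at hi
  have h3 : ((pair i).colourCount n band i : ℝ) ≤ 4 * ((Nat.log 2 n : ℝ) + 1) := by
    exact_mod_cast hb n i
  norm_num at hi
  linarith

end Pool.Agent.Results.MP_9bc523_co.NoAsymmetricSupersaturation
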